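import Mathlib

/-!
# The maximum of `i(G) * i(complement of G)`

The exact maximum of the product of the independent domination numbers of a graph on `n` vertices
and of its complement.
-/

namespace Pool.Agent.Results.MP_04d992_co.ProductValue

open Finset

/-- `S` is an independent dominating set of `G`. -/
def IsIndepDominating {V : Type*} (G : SimpleGraph V) (S : Finset V) : Prop :=
  (∀ u ∈ S, ∀ v ∈ S, ¬ G.Adj u v) ∧ ∀ v, v ∉ S → ∃ u ∈ S, G.Adj u v

/-- The independent domination number: the least size of an independent dominating set. -/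
noncomputable def indepDom {V : Type*} (G : SimpleGraph V) : ℕ :=
  sInf {k | ∃ S : Finset V, IsIndepDominating G S ∧ S.card = k}

open Classical in
/-- The value of `M(n)`. -/
noncomputable def value (n : ℕ) : ℕ :=
  if n < 8 then n
  else if n % 2 = 0 then (n + 4) ^ 2 / 16
  else (n + 3) ^ 2 / 16 + if IsSquare n ∨ IsSquare (n + 1) then 1 else 0

section Perfect

variable {V : Type*} [Fintype V] [DecidableEq V]

/-- The edges through `v` whose other vertices lie in `D`. -/
def E (H : Finset (Finset V)) (D : Finset V) (v : V) : Finset (Finset V) :=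
  H.filter fun e => v ∈ e ∧ e.erase v ⊆ D

theorem mem_E {H : Finset (Finset V)} {D : Finset V} {v : V} {e : Finset V} :
    e ∈ E H D v ↔ e ∈ H ∧ v ∈ e ∧ e.erase v ⊆ D := by
  simp [E]

/-- Existence of a one-step generating set all of whose elements have an external private vertex. -/
theorem exists_perfect_aux (H : Finset (Finset V)) : ∀ (k : ℕ) (D : Finset V), D.card = k →
    (∀ w, w ∉ D → (E H D w).Nonempty) →
    (∀ d ∈ D, (∀ w, w ∉ D → ∃ e ∈ E H D w, d ∉ e) → (E H D d).Nonempty) →
    ∃ D : Finset V, (∀ w, w ∉ D → (E H D w).Nonempty) ∧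
      ∀ d ∈ D, ∃ w, w ∉ D ∧ ∀ e ∈ E H D w, d ∈ e := by
  classical
  intro k
  induction k with
  | zero =>
    intro D hD hv _
    refine ⟨D, hv, ?_⟩
    rw [Finset.card_eq_zero] at hD
    subst hD
    intro d hd
    simp at hd
  | succ k ih =>
    intro D hD hv hN
    by_cases hne : (D.filter fun d => ∀ w, w ∉ D → ∃ e ∈ E H D w, d ∉ e).Nonempty
    · obtain ⟨d, hd, hmin⟩ := Finset.exists_min_image _ (fun d => (E H D d).card) hne
      rw [Finset.mem_filter] at hd
      obtain ⟨hdD, hdN⟩ := hd
      have hEsub : ∀ v, E H (D.erase d) v ⊆ E H D v := by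
        intro v e he
        rw [mem_E] at he ⊢
        exact ⟨he.1, he.2.1, he.2.2.trans (Finset.erase_subset _ _)⟩
      refine ih (D.erase d) (by rw [Finset.card_erase_of_mem hdD, hD]; rfl) ?_ ?_
      · intro w hw
        by_cases hwd : w = d
        · subst hwd
          obtain ⟨e, he⟩ := hN w hdD hdN
          refine ⟨e, ?_⟩
          rw [mem_E] at he ⊢
          refine ⟨he.1, he.2.1, ?_⟩
          intro z hz
          rw [Finset.mem_erase]
          exact ⟨Finset.ne_of_mem_erase hz, he.2.2 hz⟩
        · have hwD : w ∉ D := fun h => hw (Finset.mem_erase.2 ⟨hwd, h⟩)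
          obtain ⟨e, he, hde⟩ := hdN w hwD
          refine ⟨e, ?_⟩
          rw [mem_E] at he ⊢
          refine ⟨he.1, he.2.1, ?_⟩
          intro z hz
          rw [Finset.mem_erase]
          refine ⟨?_, he.2.2 hz⟩
          rintro rfl
          exact hde (Finset.mem_of_mem_erase hz)
      · intro x hx hxN
        have hxD : x ∈ D := Finset.mem_of_mem_erase hx
        have hxd : x ≠ d := Finset.ne_of_mem_erase hx
        have hxN' : ∀ w, w ∉ D → ∃ e ∈ E H D w, x ∉ e := by
          intro w hw
          obtain ⟨e, he, hxe⟩ := hxN w (fun h => hw (Finset.mem_of_mem_erase h))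
          exact ⟨e, hEsub w he, hxe⟩
        by_contra hemp
        rw [Finset.not_nonempty_iff_eq_empty] at hemp
        have hsub : E H D x ⊆ E H D d := by
          intro e he
          have he' := mem_E.1 he
          have hde : d ∈ e := by
            by_contra hde
            have : e ∈ E H (D.erase d) x := by
              rw [mem_E]
              refine ⟨he'.1, he'.2.1, ?_⟩
              intro z hz
              rw [Finset.mem_erase]
              refine ⟨?_, he'.2.2 hz⟩
              rintro rfl
              exact hde (Finset.mem_of_mem_erase hz)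
            rw [hemp] at this
            simp at this
          rw [mem_E]
          refine ⟨he'.1, hde, ?_⟩
          intro z hz
          have hze : z ∈ e := Finset.mem_of_mem_erase hz
          by_cases hzx : z = x
          · rw [hzx]; exact hxD
          · exact he'.2.2 (Finset.mem_erase.2 ⟨hzx, hze⟩)
        have hle := hmin x (Finset.mem_filter.2 ⟨hxD, hxN'⟩)
        have heq : E H D x = E H D d := Finset.eq_of_subset_of_card_le hsub hle
        obtain ⟨e, he, hxe⟩ := hxN d (Finset.notMem_erase d D)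
        have he2 : e ∈ E H D x := by
          rw [heq]
          exact hEsub d he
        exact hxe (mem_E.1 he2).2.1
    · refine ⟨D, hv, ?_⟩
      intro d hd
      by_contra hcon
      apply hne
      refine ⟨d, Finset.mem_filter.2 ⟨hd, ?_⟩⟩
      intro w hw
      by_contra h2
      apply hcon
      refine ⟨w, hw, ?_⟩
      intro e he
      by_contra h3
      exact h2 ⟨e, he, h3⟩

theorem exists_perfect (H : Finset (Finset V)) (hcov : ∀ v, ∃ e ∈ H, v ∈ e) :
    ∃ D : Finset V, (∀ w, w ∉ D → (E H D w).Nonempty) ∧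
      ∀ d ∈ D, ∃ w, w ∉ D ∧ ∀ e ∈ E H D w, d ∈ e := by
  refine exists_perfect_aux H _ Finset.univ rfl ?_ ?_
  · intro w hw
    exact absurd (Finset.mem_univ w) hw
  · intro d _ _
    obtain ⟨e, he, hd⟩ := hcov d
    exact ⟨e, mem_E.2 ⟨he, hd, Finset.subset_univ _⟩⟩

end Perfect

section Upper

variable {V : Type*} [Fintype V] [DecidableEq V]

/-- Every independent set extends to an independent dominating set. -/
theorem exists_extend (G : SimpleGraph V) (S : Finset V) (hS : ∀ u ∈ S, ∀ v ∈ S, ¬ G.Adj u v) :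
    ∃ T : Finset V, S ⊆ T ∧ IsIndepDominating G T := by
  classical
  obtain ⟨T, hT, hmax⟩ := Finset.exists_max_image
    (Finset.univ.filter fun T : Finset V => S ⊆ T ∧ ∀ u ∈ T, ∀ v ∈ T, ¬ G.Adj u v)
    (fun T => T.card) ⟨S, by simp only [Finset.mem_filter, Finset.mem_univ, true_and]
                             exact ⟨Finset.Subset.refl _, hS⟩⟩
  simp only [Finset.mem_filter, Finset.mem_univ, true_and] at hT hmax
  refine ⟨T, hT.1, hT.2, ?_⟩
  intro v hv
  by_contra hcon
  push Not at hcon
  have := hmax (insert v T) ⟨hT.1.trans (Finset.subset_insert _ _), ?_⟩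
  · rw [Finset.card_insert_of_notMem hv] at this
    omega
  · intro a ha b hb
    rw [Finset.mem_insert] at ha hb
    rcases ha with rfl | ha <;> rcases hb with rfl | hb
    · exact G.loopless.irrefl _
    · exact fun h => hcon b hb h.symm
    · exact hcon a ha
    · exact hT.2 a ha b hb

theorem indepDom_le {G : SimpleGraph V} {S : Finset V} (hS : IsIndepDominating G S) :
    indepDom G ≤ S.card := Nat.sInf_le ⟨S, hS, rfl⟩

theorem exists_indepDom (G : SimpleGraph V) :
    ∃ S : Finset V, IsIndepDominating G S ∧ S.card = indepDom G := by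
  have : {k | ∃ S : Finset V, IsIndepDominating G S ∧ S.card = k}.Nonempty := by
    obtain ⟨T, _, hT⟩ := exists_extend G ∅ (by simp)
    exact ⟨_, T, hT, rfl⟩
  exact Nat.sInf_mem this

theorem le_indepDom {G : SimpleGraph V} {k : ℕ}
    (h : ∀ S : Finset V, IsIndepDominating G S → k ≤ S.card) : k ≤ indepDom G := by
  obtain ⟨S, hS, hc⟩ := exists_indepDom G
  rw [← hc]
  exact h S hS

/-- The main inequality. -/
theorem main_ineq (G : SimpleGraph V) (x y : ℕ) (hy : 1 ≤ y) (hV : 1 ≤ Fintype.card V)
    (hx : x + 1 ≤ indepDom G) (hy2 : y + 1 ≤ indepDom Gᶜ) :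
    ∃ p q : ℕ, p + q = Fintype.card V ∧ q * x + p * y ≤ p * q := by
  classical
  set H : Finset (Finset V) := Finset.univ.filter fun e =>
    e.card = y + 1 ∧ ∀ u ∈ e, ∀ v ∈ e, u ≠ v → G.Adj u v with hH
  have hcov : ∀ v, ∃ e ∈ H, v ∈ e := by
    intro v
    obtain ⟨T, hT, hTd⟩ := exists_extend Gᶜ {v} (by
      intro a ha b hb
      rw [Finset.mem_singleton] at ha hb
      subst ha; subst hb
      exact Gᶜ.loopless.irrefl _)
    have hcard : y + 1 ≤ T.card := hy2.trans (indepDom_le hTd)
    obtain ⟨e, he1, he2, he3⟩ := Finset.exists_subsuperset_card_eq hT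
      (by rw [Finset.card_singleton]; omega) hcard
    refine ⟨e, ?_, he1 (Finset.mem_singleton_self v)⟩
    rw [hH, Finset.mem_filter]
    refine ⟨Finset.mem_univ _, he3, ?_⟩
    intro a ha b hb hab
    by_contra hadj
    exact hTd.1 a (he2 ha) b (he2 hb) ((SimpleGraph.compl_adj _ _ _).2 ⟨hab, hadj⟩)
  obtain ⟨D, hval, hper⟩ := exists_perfect H hcov
  -- the chosen cliques
  choose! e he using hval
  have he1 : ∀ w, w ∉ D → e w ∈ H := fun w hw => (mem_E.1 (he w hw)).1
  have he2 : ∀ w, w ∉ D → w ∈ e w := fun w hw => (mem_E.1 (he w hw)).2.1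
  have he3 : ∀ w, w ∉ D → (e w).erase w ⊆ D := fun w hw => (mem_E.1 (he w hw)).2.2
  have hecard : ∀ w, w ∉ D → ((e w).erase w).card = y := by
    intro w hw
    have h1 := he1 w hw
    rw [hH, Finset.mem_filter] at h1
    rw [Finset.card_erase_of_mem (he2 w hw), h1.2.1]
    rfl
  set W : Finset V := Dᶜ with hW
  have hcardW : W.card + D.card = Fintype.card V := by
    rw [hW, Finset.card_compl]
    have := Finset.card_le_univ D
    omega
  -- double counting
  have hdc : ∑ d ∈ D, (W.filter fun w => d ∈ (e w).erase w).card = y * W.card := by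
    have : ∑ d ∈ D, (W.filter fun w => d ∈ (e w).erase w).card =
        ∑ w ∈ W, (D.filter fun d => d ∈ (e w).erase w).card := by
      simp_rw [Finset.card_filter]
      exact Finset.sum_comm
    rw [this, mul_comm, ← smul_eq_mul, ← Finset.sum_const]
    refine Finset.sum_congr rfl ?_
    intro w hw
    have hw' : w ∉ D := by rw [hW, Finset.mem_compl] at hw; exact hw
    rw [← hecard w hw']
    congr 1
    ext d
    rw [Finset.mem_filter]
    exact ⟨fun h => h.2, fun h => ⟨he3 w hw' h, h⟩⟩
  have hDne : D.Nonempty := by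
    by_contra hcon
    rw [Finset.not_nonempty_iff_eq_empty] at hcon
    obtain ⟨v⟩ : Nonempty V := Fintype.card_pos_iff.1 (by omega)
    have hv : v ∉ D := by rw [hcon]; simp
    have h1 := hecard v hv
    have h2 := he3 v hv
    rw [hcon, Finset.subset_empty] at h2
    rw [h2, Finset.card_empty] at h1
    omega
  obtain ⟨d, hdD, hd⟩ : ∃ d ∈ D, y * W.card ≤
      D.card * (W.filter fun w => d ∈ (e w).erase w).card := by
    by_contra hcon
    push Not at hcon
    have h1 : ∑ d ∈ D, D.card * (W.filter fun w => d ∈ (e w).erase w).card <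
        ∑ d ∈ D, y * W.card := Finset.sum_lt_sum_of_nonempty hDne hcon
    rw [← Finset.mul_sum, hdc, Finset.sum_const, smul_eq_mul] at h1
    exact lt_irrefl _ h1
  obtain ⟨I, hI1, hI⟩ := exists_extend G {d} (by
      intro a ha b hb
      rw [Finset.mem_singleton] at ha hb
      subst ha; subst hb
      exact G.loopless.irrefl _)
  have hdI : d ∈ I := hI1 (Finset.mem_singleton_self d)
  have hIcard : x + 1 ≤ I.card := hx.trans (indepDom_le hI)
  set M : Finset V := W.filter fun w => d ∈ (e w).erase w with hM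
  -- private vertices
  choose! f hf1 hf2 using hper
  have hfadj : ∀ c ∈ D, c ≠ f c ∧ G.Adj (f c) c := by
    intro c hc
    have h1 := hf2 c hc (e (f c)) (he _ (hf1 c hc))
    have h2 := he1 _ (hf1 c hc)
    rw [hH, Finset.mem_filter] at h2
    have hne : c ≠ f c := by
      intro h
      exact hf1 c hc (h ▸ hc)
    exact ⟨hne, h2.2.2 _ (he2 _ (hf1 c hc)) _ h1 hne.symm⟩
  set J : Finset V := (I ∩ D).erase d with hJ
  have hinj : Set.InjOn f (J : Set V) := by
    intro a ha b hb hab
    rw [Finset.mem_coe, hJ, Finset.mem_erase, Finset.mem_inter] at ha hb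
    by_contra hne
    have h1 := hf2 a ha.2.2 (e (f a)) (he _ (hf1 a ha.2.2))
    have h2 := hf2 b hb.2.2 (e (f b)) (he _ (hf1 b hb.2.2))
    rw [← hab] at h2
    have h3 := he1 _ (hf1 a ha.2.2)
    rw [hH, Finset.mem_filter] at h3
    exact hI.1 a ha.2.1 b hb.2.1 (h3.2.2 a h1 b h2 hne)
  have hsub : (I ∩ W) ∪ (M ∪ J.image f) ⊆ W := by
    intro z hz
    rw [Finset.mem_union, Finset.mem_union] at hz
    rcases hz with hz | hz | hz
    · exact (Finset.mem_inter.1 hz).2
    · rw [hM] at hz
      exact (Finset.mem_filter.1 hz).1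
    · rw [Finset.mem_image] at hz
      obtain ⟨a, ha, rfl⟩ := hz
      rw [hJ, Finset.mem_erase, Finset.mem_inter] at ha
      rw [hW, Finset.mem_compl]
      exact hf1 a ha.2.2
  have hMJ : Disjoint M (J.image f) := by
    rw [Finset.disjoint_left]
    intro z hz hz2
    rw [Finset.mem_image] at hz2
    obtain ⟨a, ha, rfl⟩ := hz2
    rw [hJ, Finset.mem_erase, Finset.mem_inter] at ha
    rw [hM, Finset.mem_filter] at hz
    have h1 := hf2 a ha.2.2 (e (f a)) (he _ (hf1 a ha.2.2))
    have h3 := he1 _ (hf1 a ha.2.2)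
    rw [hH, Finset.mem_filter] at h3
    exact hI.1 a ha.2.1 d hdI (h3.2.2 a h1 d (Finset.mem_of_mem_erase hz.2) ha.1)
  have hIMJ : Disjoint (I ∩ W) (M ∪ J.image f) := by
    rw [Finset.disjoint_left]
    intro z hz hz2
    rw [Finset.mem_inter] at hz
    rw [Finset.mem_union] at hz2
    rcases hz2 with hz2 | hz2
    · rw [hM, Finset.mem_filter] at hz2
      have hzD : z ∉ D := by
        have := hz2.1
        rw [hW, Finset.mem_compl] at this
        exact this
      have h3 := he1 _ hzD
      rw [hH, Finset.mem_filter] at h3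
      exact hI.1 z hz.1 d hdI (h3.2.2 z (he2 z hzD) d (Finset.mem_of_mem_erase hz2.2)
        (Finset.ne_of_mem_erase hz2.2).symm)
    · rw [Finset.mem_image] at hz2
      obtain ⟨a, ha, rfl⟩ := hz2
      rw [hJ, Finset.mem_erase, Finset.mem_inter] at ha
      exact hI.1 _ hz.1 a ha.2.1 (hfadj a ha.2.2).2
  have hcount : (I ∩ W).card + (M.card + J.card) ≤ W.card := by
    have h1 := Finset.card_le_card hsub
    rw [Finset.card_union_of_disjoint hIMJ, Finset.card_union_of_disjoint hMJ,
      Finset.card_image_of_injOn hinj] at h1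
    exact h1
  have hIsplit : I.card = (I ∩ D).card + (I ∩ W).card := by
    rw [hW, ← Finset.sdiff_eq_inter_compl]
    exact (Finset.card_inter_add_card_sdiff I D).symm
  have hJcard : J.card + 1 = (I ∩ D).card := by
    rw [hJ]
    exact Finset.card_erase_add_one (Finset.mem_inter.2 ⟨hdI, hdD⟩)
  refine ⟨W.card, D.card, hcardW, ?_⟩
  have hfin : x + M.card ≤ W.card := by omega
  have h5 := Nat.mul_le_mul_left D.card hfin
  have h6 : y * W.card ≤ D.card * M.card := hd
  nlinarith

theorem one_le_indepDom [Nonempty V] (G : SimpleGraph V) : 1 ≤ indepDom G := by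
  refine le_indepDom ?_
  intro S hS
  rw [Nat.one_le_iff_ne_zero]
  intro h
  rw [Finset.card_eq_zero] at h
  subst h
  obtain ⟨v⟩ := ‹Nonempty V›
  obtain ⟨u, hu, _⟩ := hS.2 v (by simp)
  simp at hu

theorem indepDom_le_card (G : SimpleGraph V) : indepDom G ≤ Fintype.card V := by
  obtain ⟨S, hS, hc⟩ := exists_indepDom G
  rw [← hc]
  exact Finset.card_le_univ S

end Upper

section Arith

theorem arith_small : ∀ n < 8, ∀ x < n, ∀ y < n, x + y ≤ n → 4 * x * y ≤ (n - x - y) ^ 2 →
    (x + 1) * (y + 1) ≤ n := by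
  decide

theorem arith_nine : ∀ x < 9, ∀ y < 9, x + y ≤ 9 → 4 * x * y ≤ (9 - x - y) ^ 2 →
    (x + 1) * (y + 1) ≤ 10 := by
  decide

theorem div_aux (m : ℕ) : (2 * m + 1 + 3) ^ 2 / 16 = (m + 2) ^ 2 / 4 := by
  rw [show (2 * m + 1 + 3) ^ 2 = 4 * (m + 2) ^ 2 by ring, show (16 : ℕ) = 4 * 4 by norm_num,
    Nat.mul_div_mul_left _ _ (by norm_num)]


theorem arith_odd (m x y N : ℕ) (hm : 4 ≤ m) (hn : x + y + N = 2 * m + 1)
    (h : 4 * x * y ≤ N ^ 2) (hx : x < 2 * m + 1) (hy : y < 2 * m + 1) :
    (x + 1) * (y + 1) ≤ (m + 2) ^ 2 / 4 ∨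
      ((IsSquare (2 * m + 1) ∨ IsSquare (2 * m + 1 + 1)) ∧
        (x + 1) * (y + 1) ≤ (m + 2) ^ 2 / 4 + 1) := by
  rcases Nat.lt_or_ge m 5 with h5 | h5
  · obtain rfl : m = 4 := by omega
    right
    refine ⟨Or.inl ⟨3, by norm_num⟩, ?_⟩
    have := arith_nine x (by omega) y (by omega) (by omega)
      (by rw [show 9 - x - y = N by omega]; exact h)
    norm_num
    exact this
  rcases Nat.lt_or_ge (x + y) (m + 1) with hu | hu
  · left
    rw [Nat.le_div_iff_mul_le (by norm_num)]
    have h1 : x + y ≤ m := by omega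
    nlinarith [four_mul_le_sq_add x y, Nat.mul_le_mul h1 h1]
  rcases Nat.lt_or_ge (m + 1) (x + y) with hu2 | hu2
  · left
    rw [Nat.le_div_iff_mul_le (by norm_num)]
    have hNm : N + 1 ≤ m := by omega
    obtain ⟨u, hu3⟩ : ∃ u, u = x + y := ⟨_, rfl⟩
    have h6 : (x + 1) * (y + 1) * 4 = 4 * x * y + 4 * u + 4 := by rw [hu3]; ring
    rw [h6]
    have h7 : u + N = 2 * m + 1 := by omega
    zify at *
    have h8 : (u : ℤ) = 2 * m + 1 - N := by linarith
    rw [h8]
    by_cases hN4 : (N : ℤ) ≤ 4
    · nlinarith [mul_nonneg (show (0 : ℤ) ≤ N by positivity) (sub_nonneg.2 hN4)]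
    · push Not at hN4
      nlinarith [mul_nonneg (show (0 : ℤ) ≤ m - 1 - N by linarith)
        (show (0 : ℤ) ≤ m - 1 + N - 4 by linarith)]
  · -- x + y = m + 1, N = m
    have hxy : x + y = m + 1 := by omega
    have hN : N = m := by omega
    subst hN
    -- the difference
    have hd1 : ((x : ℤ) - y) ^ 2 = (N + 1) ^ 2 - 4 * x * y := by
      have : (x : ℤ) + y = N + 1 := by exact_mod_cast hxy
      rw [← this]; ring
    have hd2 : (2 * N + 1 : ℤ) ≤ ((x : ℤ) - y) ^ 2 := by
      have h' : (4 * x * y : ℤ) ≤ N ^ 2 := by exact_mod_cast h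
      rw [hd1]; nlinarith
    have hP : (4 : ℤ) * ((x + 1) * (y + 1)) = (N + 3) ^ 2 - ((x : ℤ) - y) ^ 2 := by
      have : (x : ℤ) + y = N + 1 := by exact_mod_cast hxy
      have h9 : (y : ℤ) = N + 1 - x := by linarith
      rw [h9]; ring
    by_cases hbig : (2 * N + 5 : ℤ) ≤ ((x : ℤ) - y) ^ 2
    · left
      rw [Nat.le_div_iff_mul_le (by norm_num)]
      have : ((x + 1) * (y + 1) * 4 : ℤ) ≤ (N + 2) ^ 2 := by nlinarith
      exact_mod_cast this
    · push Not at hbig
      right
      obtain ⟨δ, hδ⟩ : ∃ δ : ℤ, δ = (x : ℤ) - y := ⟨_, rfl⟩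
      rw [← hδ] at hd2 hP hbig
      have hpar : (δ - (N + 1)) % 2 = 0 := by
        have : (x : ℤ) + y = N + 1 := by exact_mod_cast hxy
        omega
      have hsqnat : ((δ.natAbs * δ.natAbs : ℕ) : ℤ) = δ ^ 2 := by
        rw [Nat.cast_mul, Int.natCast_natAbs, abs_mul_abs_self]; ring
      rcases Nat.even_or_odd' N with ⟨c, hc | hc⟩
      · -- N even, δ odd
        obtain ⟨b, hb⟩ : ∃ b : ℤ, δ = 2 * b + 1 := ⟨(δ - 1) / 2, by omega⟩
        have h10 : δ ^ 2 = 4 * (b * b + b) + 1 := by rw [hb]; ring
        have h11 : δ ^ 2 = 2 * N + 1 := by omega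
        refine ⟨Or.inl ⟨δ.natAbs, ?_⟩, ?_⟩
        · zify
          have := hsqnat
          push_cast at this ⊢
          linarith
        · have h12 : (4 : ℤ) * ((x + 1) * (y + 1)) ≤ (N + 2) ^ 2 + 4 := by rw [hP]; nlinarith
          have h13 : 4 * ((x + 1) * (y + 1)) ≤ (N + 2) ^ 2 + 4 := by exact_mod_cast h12
          omega
      · obtain ⟨b, hb⟩ : ∃ b : ℤ, δ = 2 * b := ⟨δ / 2, by omega⟩
        have h10 : δ ^ 2 = 4 * (b * b) := by rw [hb]; ring
        have h11 : δ ^ 2 = 2 * N + 2 := by omega
        refine ⟨Or.inr ⟨δ.natAbs, ?_⟩, ?_⟩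
        · zify
          have := hsqnat
          push_cast at this ⊢
          linarith
        · have h12 : (4 : ℤ) * ((x + 1) * (y + 1)) ≤ (N + 2) ^ 2 + 3 := by rw [hP]; nlinarith
          have h13 : 4 * ((x + 1) * (y + 1)) ≤ (N + 2) ^ 2 + 3 := by exact_mod_cast h12
          omega

theorem arith_upper (n x y N : ℕ) (hn : x + y + N = n) (h : 4 * x * y ≤ N ^ 2) (hx : x < n)
    (hy : y < n) : (x + 1) * (y + 1) ≤ value n := by
  unfold value
  split_ifs with h8 h2 hsq
  · refine arith_small n h8 x hx y hy (by omega) ?_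
    rw [show n - x - y = N by omega]
    exact h
  · rw [Nat.le_div_iff_mul_le (by norm_num)]
    subst hn
    rcases Nat.le_total (x + y) N with hle | hle
    · nlinarith [sq_nonneg ((x : ℤ) - y), sq_nonneg (x - y : ℤ), Nat.mul_le_mul hle hle,
        four_mul_le_sq_add x y]
    · have h8' : 8 ≤ x + y + N := by omega
      by_cases hN : N ≤ 4
      · nlinarith [Nat.mul_le_mul_left N hN, Nat.zero_le ((x + y + N) * (x + y + N - 8)),
          Nat.mul_le_mul_left (x + y + N) h8']
      · push Not at hN
        nlinarith [Nat.mul_le_mul hN.le hle, Nat.mul_le_mul hle hle,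
          Nat.mul_le_mul_left (x + y - N) h8', Nat.mul_le_mul_left (x + y + N) h8']
  · obtain ⟨m, rfl⟩ : ∃ m, n = 2 * m + 1 := ⟨n / 2, by omega⟩
    rw [div_aux]
    rcases arith_odd m x y N (by omega) hn h hx hy with h1 | h1
    · omega
    · exact h1.2
  · obtain ⟨m, rfl⟩ : ∃ m, n = 2 * m + 1 := ⟨n / 2, by omega⟩
    rw [div_aux]
    rcases arith_odd m x y N (by omega) hn h hx hy with h1 | h1
    · omega
    · exact absurd h1.1 hsq

end Arith

section Lower

/-- The vertex `j` on the clique side is one of the `y` neighbours of the vertex `i`. -/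
def R (q y i j : ℕ) : Prop := ∃ k < y, (i * y + k) % q = j

/-- The extremal graph: an independent set of size `p`, a clique of size `q`, and a balanced
bipartite graph between them. -/
def G1 (p q y : ℕ) : SimpleGraph (Fin p ⊕ Fin q) where
  Adj a b := match a, b with
    | Sum.inl _, Sum.inl _ => False
    | Sum.inr j, Sum.inr j' => j ≠ j'
    | Sum.inl i, Sum.inr j => R q y i j
    | Sum.inr j, Sum.inl i => R q y i j
  symm := by
    constructor
    intro a b h
    rcases a with a | a <;> rcases b with b | b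
    · exact h
    · exact h
    · exact h
    · exact fun h' => h h'.symm
  loopless := by
    constructor
    intro a h
    rcases a with a | a
    · exact h
    · exact h rfl

open Classical in
theorem card_nbr (p q y : ℕ) (hyq : y ≤ q) (hq : 1 ≤ q) (i : Fin p) :
    y ≤ (Finset.univ.filter fun j : Fin q => R q y i j).card := by
  have h1 : (Finset.range y).card ≤ (Finset.univ.filter fun j : Fin q => R q y i j).card := by
    refine Finset.card_le_card_of_injOn
      (fun k => (⟨(i.val * y + k) % q, Nat.mod_lt _ (by omega)⟩ : Fin q)) ?_ ?_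
    · intro k hk
      rw [Finset.coe_range, Set.mem_Iio] at hk
      simp only [Finset.coe_filter, Finset.mem_univ, true_and, Set.mem_setOf_eq]
      exact ⟨k, hk, rfl⟩
    · intro k hk k' hk' h
      rw [Finset.coe_range, Set.mem_Iio] at hk hk'
      have h2 : (i.val * y + k) ≡ (i.val * y + k') [MOD q] := Fin.ext_iff.1 h
      have h3 := Nat.ModEq.add_left_cancel' _ h2
      exact Nat.ModEq.eq_of_lt_of_lt h3 (by omega) (by omega)
  simpa using h1

open Classical in
theorem card_conbr (p q x y : ℕ) (hq : 1 ≤ q) (h : q * x + p * y ≤ p * q)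
    (j : Fin q) : (Finset.univ.filter fun i : Fin p => R q y i j).card + x ≤ p := by
  have hxp : x ≤ p := by
    by_contra hcon
    push Not at hcon
    nlinarith [Nat.mul_le_mul_left q hcon]
  suffices hs : (Finset.univ.filter fun i : Fin p => R q y i j).card ≤ (Finset.range (p - x)).card by
    rw [Finset.card_range] at hs
    omega
  have hpy : p * y ≤ q * (p - x) := by
    obtain ⟨t, rfl⟩ := Nat.exists_eq_add_of_le hxp
    rw [Nat.add_sub_cancel_left]
    nlinarith
  have hex : ∀ i : Fin p, R q y i j → ∃ k, k < y ∧ (i.val * y + k) % q = j.val := by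
    intro i hi
    obtain ⟨k, hk, hk2⟩ := hi
    exact ⟨k, hk, hk2⟩
  choose! k hk1 hk2 using hex
  refine Finset.card_le_card_of_injOn (fun i => (i.val * y + k i) / q) ?_ ?_
  · intro i hi
    simp only [Finset.coe_filter, Finset.mem_univ, true_and, Set.mem_setOf_eq] at hi
    rw [Finset.coe_range, Set.mem_Iio]
    rw [Nat.div_lt_iff_lt_mul (by omega)]
    have h1 := hk1 i hi
    have h2 : (i.val + 1) * y ≤ p * y := Nat.mul_le_mul_right y i.isLt
    nlinarith
  · intro i hi i' hi' heq
    simp only [Finset.coe_filter, Finset.mem_univ, true_and, Set.mem_setOf_eq] at hi hi'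
    have e1 := Nat.div_add_mod (i.val * y + k i) q
    have e2 := Nat.div_add_mod (i'.val * y + k i') q
    rw [hk2 i hi] at e1
    rw [hk2 i' hi'] at e2
    simp only at heq
    rw [heq] at e1
    have e3 : i.val * y + k i = i'.val * y + k i' := by omega
    have h1 := hk1 i hi
    have h2 := hk1 i' hi'
    apply Fin.ext
    have e4 : (i.val * y + k i) / y = i.val := by
      rw [mul_comm, Nat.mul_add_div (by omega), Nat.div_eq_of_lt h1]; rfl
    have e5 : (i'.val * y + k i') / y = i'.val := by
      rw [mul_comm, Nat.mul_add_div (by omega), Nat.div_eq_of_lt h2]; rfl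
    rw [← e4, ← e5, e3]

theorem lower_sum (p q x y : ℕ) (hp : 1 ≤ p) (hq : 1 ≤ q) (h : q * x + p * y ≤ p * q) :
    x + 1 ≤ indepDom (G1 p q y) ∧ y + 1 ≤ indepDom (G1 p q y)ᶜ := by
  classical
  have hyq : y ≤ q := by
    by_contra hcon
    push Not at hcon
    nlinarith [Nat.mul_le_mul_left p hcon]
  constructor
  · refine le_indepDom ?_
    intro S hS
    by_cases hex : ∃ j : Fin q, Sum.inr j ∈ S
    · obtain ⟨j, hj⟩ := hex
      have hsub : insert (Sum.inr j) ((Finset.univ.filter fun i : Fin p => ¬ R q y i j).image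
          (Sum.inl : Fin p → Fin p ⊕ Fin q)) ⊆ S := by
        intro z hz
        rw [Finset.mem_insert] at hz
        rcases hz with rfl | hz
        · exact hj
        · rw [Finset.mem_image] at hz
          obtain ⟨i, hi, rfl⟩ := hz
          rw [Finset.mem_filter] at hi
          by_contra hcon
          obtain ⟨u, hu, hadj⟩ := hS.2 _ hcon
          rcases u with u | u
          · exact hadj
          · by_cases huj : u = j
            · subst huj
              exact hi.2 hadj
            · exact hS.1 _ hu _ hj huj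
      have hc := Finset.card_le_card hsub
      rw [Finset.card_insert_of_notMem (by simp),
        Finset.card_image_of_injective _ Sum.inl_injective] at hc
      have h1 := card_conbr p q x y hq h j
      have h2 := Finset.card_filter_add_card_filter_not (s := (Finset.univ : Finset (Fin p)))
        (fun i : Fin p => R q y i j)
      rw [Finset.card_univ, Fintype.card_fin] at h2
      omega
    · push Not at hex
      have hsub : (Finset.univ : Finset (Fin p)).image (Sum.inl : Fin p → Fin p ⊕ Fin q) ⊆ S := by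
        intro z hz
        rw [Finset.mem_image] at hz
        obtain ⟨i, _, rfl⟩ := hz
        by_contra hcon
        obtain ⟨u, hu, hadj⟩ := hS.2 _ hcon
        rcases u with u | u
        · exact hadj
        · exact hex u hu
      have hc := Finset.card_le_card hsub
      rw [Finset.card_image_of_injective _ Sum.inl_injective, Finset.card_univ,
        Fintype.card_fin] at hc
      obtain ⟨u, hu, hadj⟩ := hS.2 (Sum.inr ⟨0, hq⟩) (hex _)
      rcases u with u | u
      · have h1 := card_conbr p q x y hq h ⟨0, hq⟩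
        have h2 : 0 < (Finset.univ.filter fun i : Fin p => R q y i (⟨0, hq⟩ : Fin q)).card := by
          rw [Finset.card_pos]
          exact ⟨u, Finset.mem_filter.2 ⟨Finset.mem_univ _, hadj⟩⟩
        omega
      · exact absurd hu (hex u)
  · refine le_indepDom ?_
    intro S hS
    by_cases hex : ∃ i : Fin p, Sum.inl i ∈ S
    · obtain ⟨i, hi⟩ := hex
      have hsub : insert (Sum.inl i) ((Finset.univ.filter fun j : Fin q => R q y i j).image
          (Sum.inr : Fin q → Fin p ⊕ Fin q)) ⊆ S := by
        intro z hz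
        rw [Finset.mem_insert] at hz
        rcases hz with rfl | hz
        · exact hi
        · rw [Finset.mem_image] at hz
          obtain ⟨j, hj, rfl⟩ := hz
          rw [Finset.mem_filter] at hj
          by_contra hcon
          obtain ⟨u, hu, hadj⟩ := hS.2 _ hcon
          rw [SimpleGraph.compl_adj] at hadj
          rcases u with u | u
          · by_cases hui : u = i
            · subst hui
              exact hadj.2 hj.2
            · refine hS.1 _ hu _ hi ?_
              rw [SimpleGraph.compl_adj]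
              refine ⟨fun h' => hui (Sum.inl_injective h'), fun h' => h'⟩
          · apply hadj.2
            show u ≠ j
            intro h'
            exact hadj.1 (by rw [h'])
      have hc := Finset.card_le_card hsub
      rw [Finset.card_insert_of_notMem (by simp),
        Finset.card_image_of_injective _ Sum.inr_injective] at hc
      have h1 := card_nbr p q y hyq hq i
      omega
    · push Not at hex
      have hsub : (Finset.univ : Finset (Fin q)).image (Sum.inr : Fin q → Fin p ⊕ Fin q) ⊆ S := by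
        intro z hz
        rw [Finset.mem_image] at hz
        obtain ⟨j, _, rfl⟩ := hz
        by_contra hcon
        obtain ⟨u, hu, hadj⟩ := hS.2 _ hcon
        rw [SimpleGraph.compl_adj] at hadj
        rcases u with u | u
        · exact hex u hu
        · apply hadj.2
          show u ≠ j
          intro h'
          exact hadj.1 (by rw [h'])
      have hc := Finset.card_le_card hsub
      rw [Finset.card_image_of_injective _ Sum.inr_injective, Finset.card_univ,
        Fintype.card_fin] at hc
      obtain ⟨u, hu, hadj⟩ := hS.2 (Sum.inl ⟨0, hp⟩) (hex _)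
      rw [SimpleGraph.compl_adj] at hadj
      rcases u with u | u
      · exact absurd hu (hex u)
      · have h1 := card_nbr p q y hyq hq ⟨0, hp⟩
        have h2 : (Finset.univ.filter fun j : Fin q => R q y (⟨0, hp⟩ : Fin p) j) ≠
            Finset.univ := by
          intro h'
          have : u ∈ (Finset.univ.filter fun j : Fin q => R q y (⟨0, hp⟩ : Fin p) j) := by
            rw [h']; exact Finset.mem_univ _
          exact hadj.2 (Finset.mem_filter.1 this).2
        have h3 := Finset.card_lt_card (Finset.ssubset_univ_iff.2 h2)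
        rw [Finset.card_univ, Fintype.card_fin] at h3
        omega

theorem indepDom_comap {V W : Type*} (e : V ≃ W) (G : SimpleGraph W) :
    indepDom (G.comap e) = indepDom G := by
  unfold indepDom
  congr 1
  ext k
  simp only [Set.mem_setOf_eq]
  constructor
  · rintro ⟨S, hS, rfl⟩
    refine ⟨S.map e.toEmbedding, ⟨?_, ?_⟩, Finset.card_map _⟩
    · intro u hu v hv
      rw [Finset.mem_map_equiv] at hu hv
      have := hS.1 _ hu _ hv
      simpa using this
    · intro v hv
      rw [Finset.mem_map_equiv] at hv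
      obtain ⟨u, hu, hadj⟩ := hS.2 _ hv
      refine ⟨e u, ?_, by simpa using hadj⟩
      rw [Finset.mem_map_equiv]
      simpa using hu
  · rintro ⟨S, hS, rfl⟩
    refine ⟨S.map e.symm.toEmbedding, ⟨?_, ?_⟩, Finset.card_map _⟩
    · intro u hu v hv
      rw [Finset.mem_map_equiv] at hu hv
      exact hS.1 _ hu _ hv
    · intro v hv
      rw [Finset.mem_map_equiv] at hv
      obtain ⟨u, hu, hadj⟩ := hS.2 _ hv
      refine ⟨e.symm u, ?_, ?_⟩
      · rw [Finset.mem_map_equiv]
        simpa using hu
      · simpa using hadj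

theorem comap_compl' {V W : Type*} (e : V ≃ W) (G : SimpleGraph W) :
    (G.comap e)ᶜ = Gᶜ.comap e := by
  ext a b
  simp [SimpleGraph.compl_adj]

theorem lower (n p q x y : ℕ) (hp : 1 ≤ p) (hq : 1 ≤ q) (hn : p + q = n)
    (h : q * x + p * y ≤ p * q) :
    ∃ G : SimpleGraph (Fin n), (x + 1) * (y + 1) ≤ indepDom G * indepDom Gᶜ := by
  subst hn
  refine ⟨(G1 p q y).comap finSumFinEquiv.symm, ?_⟩
  rw [comap_compl', indepDom_comap, indepDom_comap]
  obtain ⟨h1, h2⟩ := lower_sum p q x y hp hq h
  exact Nat.mul_le_mul h1 h2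

theorem exists_graph (n : ℕ) (hn : 1 ≤ n) :
    ∃ G : SimpleGraph (Fin n), value n ≤ indepDom G * indepDom Gᶜ := by
  unfold value
  split_ifs with h8 h2 hsq
  · rcases Nat.lt_or_ge n 2 with h1 | h1
    · obtain rfl : n = 1 := by omega
      refine ⟨⊥, ?_⟩
      have h1 := one_le_indepDom (⊥ : SimpleGraph (Fin 1))
      have h2 := one_le_indepDom (⊥ : SimpleGraph (Fin 1))ᶜ
      exact Nat.mul_le_mul h1 h2
    · obtain ⟨G, hG⟩ := lower n 1 (n - 1) 0 (n - 1) le_rfl (by omega) (by omega) (by simp)
      refine ⟨G, le_trans (le_of_eq ?_) hG⟩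
      omega
  · obtain ⟨m, rfl⟩ : ∃ m, n = 2 * m := ⟨n / 2, by omega⟩
    obtain ⟨G, hG⟩ := lower (2 * m) m m (m / 2) (m - m / 2) (by omega) (by omega) (by omega) (by
      rw [← Nat.mul_add, show m / 2 + (m - m / 2) = m by omega])
    refine ⟨G, le_trans (le_of_eq ?_) hG⟩
    rw [show (2 * m + 4) ^ 2 = 4 * (m + 2) ^ 2 by ring, show (16 : ℕ) = 4 * 4 by norm_num,
      Nat.mul_div_mul_left _ _ (by norm_num)]
    rcases Nat.even_or_odd' m with ⟨c, hc | hc⟩
    · subst hc
      rw [show 2 * c / 2 = c by omega, show 2 * c - c = c by omega,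
        show (2 * c + 2) ^ 2 = 4 * ((c + 1) * (c + 1)) by ring]
      omega
    · subst hc
      rw [show (2 * c + 1) / 2 = c by omega, show 2 * c + 1 - c = c + 1 by omega,
        show (2 * c + 1 + 2) ^ 2 = 4 * ((c + 1) * (c + 1 + 1)) + 1 by ring]
      omega
  · obtain ⟨m, rfl⟩ : ∃ m, n = 2 * m + 1 := ⟨n / 2, by omega⟩
    rw [div_aux]
    rcases hsq with ⟨r, hr⟩ | ⟨r, hr⟩
    · -- n = (2e+1)^2
      obtain ⟨e, rfl | rfl⟩ := Nat.even_or_odd' r
      · exfalso
        have : 2 * m + 1 = 2 * (2 * e * e) := by rw [hr]; ring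
        omega
      · have he : 1 ≤ e := by
          by_contra hcon
          obtain rfl : e = 0 := by omega
          omega
        have hm : m = 2 * e * e + 2 * e := by
          have : 2 * m + 1 = 2 * (2 * e * e + 2 * e) + 1 := by rw [hr]; ring
          omega
        obtain ⟨G, hG⟩ := lower (2 * m + 1) (e * (2 * e + 1)) ((e + 1) * (2 * e + 1))
          (e * e) ((e + 1) * (e + 1)) (by nlinarith) (by nlinarith) (by rw [hr]; ring)
          (le_of_eq (by ring))
        refine ⟨G, le_trans (le_of_eq ?_) hG⟩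
        rw [hm, show (2 * e * e + 2 * e + 2) ^ 2 = 4 * ((e * e + e + 1) ^ 2) by ring,
          Nat.mul_div_cancel_left _ (by norm_num)]
        ring
    · -- n + 1 = (2e)^2
      obtain ⟨e, rfl | rfl⟩ := Nat.even_or_odd' r
      · obtain ⟨f, rfl⟩ : ∃ f, e = f + 1 := by
          refine ⟨e - 1, ?_⟩
          by_contra hcon
          obtain rfl : e = 0 := by omega
          omega
        have hf : 1 ≤ f := by
          by_contra hcon
          obtain rfl : f = 0 := by omega
          omega
        have hm : m = 2 * (f * f) + 4 * f + 1 := by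
          have : 2 * m + 1 + 1 = 2 * (2 * (f * f) + 4 * f + 1) + 2 := by rw [hr]; ring
          omega
        obtain ⟨G, hG⟩ := lower (2 * m + 1) ((2 * f + 3) * f) ((f + 1) * (2 * f + 3))
          ((f + 1) * f) ((f + 1) * (f + 2)) (by nlinarith) (by nlinarith)
          (by rw [hm]; ring) (le_of_eq (by ring))
        refine ⟨G, le_trans (le_of_eq ?_) hG⟩
        rw [hm, show (2 * (f * f) + 4 * f + 1 + 2) ^ 2 =
          4 * (f ^ 4 + 4 * f ^ 3 + 7 * f ^ 2 + 6 * f + 2) + 1 by ring]
        have : (4 * (f ^ 4 + 4 * f ^ 3 + 7 * f ^ 2 + 6 * f + 2) + 1) / 4 =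
          f ^ 4 + 4 * f ^ 3 + 7 * f ^ 2 + 6 * f + 2 := by omega
        rw [this]
        ring
      · exfalso
        have : 2 * m + 1 + 1 = 2 * (2 * e * e + 2 * e) + 1 := by rw [hr]; ring
        omega
  · obtain ⟨m, rfl⟩ : ∃ m, n = 2 * m + 1 := ⟨n / 2, by omega⟩
    rw [div_aux]
    obtain ⟨G, hG⟩ := lower (2 * m + 1) (m + 1) m (m / 2) (m - m / 2) (by omega) (by omega)
      (by omega) (by
        have h1 : m / 2 + (m - m / 2) = m := by omega
        have h2 : m - m / 2 ≤ m := by omega
        have h3 : m * (m / 2) + m * (m - m / 2) = m * m := by rw [← Nat.mul_add, h1]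
        nlinarith)
    refine ⟨G, le_trans (le_of_eq ?_) hG⟩
    rcases Nat.even_or_odd' m with ⟨c, hc | hc⟩
    · subst hc
      rw [show 2 * c / 2 = c by omega, show 2 * c - c = c by omega,
        show (2 * c + 2) ^ 2 = 4 * ((c + 1) * (c + 1)) by ring]
      omega
    · subst hc
      rw [show (2 * c + 1) / 2 = c by omega, show 2 * c + 1 - c = c + 1 by omega,
        show (2 * c + 1 + 2) ^ 2 = 4 * ((c + 1) * (c + 1 + 1)) + 1 by ring]
      omega

end Lower

theorem upper (n : ℕ) (hn : 1 ≤ n) (G : SimpleGraph (Fin n)) :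
    indepDom G * indepDom Gᶜ ≤ value n := by
  haveI : Nonempty (Fin n) := ⟨⟨0, hn⟩⟩
  have ha1 := one_le_indepDom G
  have hb1 := one_le_indepDom Gᶜ
  have ha2 := indepDom_le_card G
  have hb2 := indepDom_le_card Gᶜ
  rw [Fintype.card_fin] at ha2 hb2
  obtain ⟨x, hx⟩ : ∃ x, indepDom G = x + 1 := ⟨indepDom G - 1, by omega⟩
  obtain ⟨y, hy⟩ : ∃ y, indepDom Gᶜ = y + 1 := ⟨indepDom Gᶜ - 1, by omega⟩
  rw [hx, hy]
  rcases Nat.eq_zero_or_pos y with hy0 | hy0
  · subst hy0
    exact arith_upper n x 0 (n - x) (by omega) (by positivity) (by omega) (by omega)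
  · obtain ⟨p, q, hpq, h⟩ := main_ineq G x y hy0 (by rw [Fintype.card_fin]; exact hn)
      (le_of_eq hx.symm) (le_of_eq hy.symm)
    rw [Fintype.card_fin] at hpq
    rcases Nat.eq_zero_or_pos p with hp0 | hp0
    · subst hp0
      have hx0 : x = 0 := by
        have h1 : q * x = 0 := by nlinarith
        rcases Nat.mul_eq_zero.1 h1 with h2 | h2
        · omega
        · exact h2
      subst hx0
      exact arith_upper n 0 y (n - y) (by omega) (by simp) (by omega) (by omega)
    rcases Nat.eq_zero_or_pos q with hq0 | hq0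
    · subst hq0
      exfalso
      have h1 : p * y = 0 := by nlinarith
      rcases Nat.mul_eq_zero.1 h1 with h2 | h2 <;> omega
    have hyq : y ≤ q := by
      by_contra hcon
      push Not at hcon
      nlinarith [Nat.mul_le_mul_left p hcon]
    have hxp : x ≤ p := by
      by_contra hcon
      push Not at hcon
      nlinarith [Nat.mul_le_mul_left q hcon]
    obtain ⟨s, rfl⟩ := Nat.exists_eq_add_of_le hyq
    obtain ⟨t, rfl⟩ := Nat.exists_eq_add_of_le hxp
    refine arith_upper n x y (s + t) (by omega) ?_ (by omega) (by omega)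
    have h3 : x * y ≤ s * t := by nlinarith
    have h4 := four_mul_le_sq_add s t
    nlinarith

/-- For every `n ≥ 1`, the maximum of `i(G) i(complement of G)` over the graphs `G` on `n` vertices
is `n` if `n < 8`, `⌊(n+4)²/16⌋` if `n ≥ 8` is even, and `⌊(n+3)²/16⌋` if `n ≥ 9` is odd, plus one
in case `n` or `n + 1` is a perfect square. -/
theorem result (n : ℕ) (hn : 1 ≤ n) :
    IsGreatest {m | ∃ G : SimpleGraph (Fin n), m = indepDom G * indepDom Gᶜ} (value n) := by
  constructor
  · obtain ⟨G, hG⟩ := exists_graph n hn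
    exact ⟨G, le_antisymm hG (upper n hn G)⟩
  · rintro m ⟨G, rfl⟩
    exact upper n hn G

end Pool.Agent.Results.MP_04d992_co.ProductValue
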